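import Pool.Agent.Lib.MP_34a06d_pr.Main

/-!
The expected speed is not monotone for random rate fields whose laws are invariant under left
multiplication: a counterexample on a right-angled Coxeter group.
-/

set_option autoImplicit false

namespace Pool.Agent.Results.MP_34a06d_pr.NotMonotone

open MeasureTheory Filter Topology

/-- A random rate field with rates in `[0,1]` on the Cayley graph of the Coxeter system `cs`:
`r ω w i` is the rate of the edge `{w, w s_i}`. -/
structure IsRateField {B W : Type} [Group W] {M : CoxeterMatrix B} (cs : CoxeterSystem M W)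
    {Ω : Type} [MeasurableSpace Ω] (r : Ω → W → B → ℝ) : Prop where
  measurable : Measurable r
  nonneg : ∀ ω w i, 0 ≤ r ω w i
  le_one : ∀ ω w i, r ω w i ≤ 1
  symm : ∀ ω w i, r ω (w * cs.simple i) i = r ω w i

/-- The law of the field is invariant under left multiplication. -/
def LawInvariant {B W Ω : Type} [Group W] [MeasurableSpace Ω] (μ : Measure Ω)
    (r : Ω → W → B → ℝ) : Prop :=
  ∀ g : W, μ.map (fun ω w i => r ω (g * w) i) = μ.map r

/-- Expectation of `f` after one ring of a clock of rate `|B|`: at a ring a generator `i` is chosen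
uniformly and the edge `{w, w s_i}` is crossed with probability `r w i`. -/
noncomputable def step {B W : Type} [Fintype B] [Group W] {M : CoxeterMatrix B}
    (cs : CoxeterSystem M W) (r : W → B → ℝ) (f : W → ℝ) (w : W) : ℝ :=
  f w + (1 / (Fintype.card B : ℝ)) * ∑ i, r w i * (f (w * cs.simple i) - f w)

/-- `E |Z_t|` for the walk in the rate field `r` started at `1`: the number of rings up to time `t`
is Poisson with mean `|B| t`. -/
noncomputable def meanDist {B W : Type} [Fintype B] [Group W] {M : CoxeterMatrix B}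
    (cs : CoxeterSystem M W) (r : W → B → ℝ) (t : ℝ) : ℝ :=
  ∑' n : ℕ, Real.exp (-(Fintype.card B * t)) * (Fintype.card B * t) ^ n / (n.factorial : ℝ) *
    (step cs r)^[n] (fun w => (cs.length w : ℝ)) 1

/-- `v` is the expected speed `lim E |Z_t| / t`, averaged over the field and the walk. -/
def IsSpeed {B W Ω : Type} [Fintype B] [Group W] {M : CoxeterMatrix B} (cs : CoxeterSystem M W)
    [MeasurableSpace Ω] (μ : Measure Ω) (r : Ω → W → B → ℝ) (v : ℝ) : Prop :=
  Tendsto (fun t : ℝ => (∫ ω, meanDist cs (r ω) t ∂μ) / t) atTop (𝓝 v)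

section

open Pool.Agent.MR

variable {N m : ℕ}

lemma speed_of [NeZero m] (r : Om m → GG N m → Gn N m → ℝ) (hm : Measurable r)
    (hr : ∀ ω w i, 0 ≤ r ω w i ∧ r ω w i ≤ 1) (hs : ∀ ω w i, r ω (w * sm i) i = r ω w i)
    (hinv : ∀ g : GG N m, (mu m).map (fun ω w j => r ω (g * w) j) = (mu m).map r)
    [IsProbabilityMeasure (mu m)] :
    ∃ v : ℝ, Tendsto (fun n : ℕ => (∫ ω, (K sm (r ω))^[n] len 1 ∂(mu m)) / n) atTop (𝓝 v) ∧
      IsSpeed (cs N m) (mu m) r (Fintype.card (Gn N m) * v) ∧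
      ∀ n : ℕ, Integrable (fun ω => (K sm (r ω))^[n] len (1 : GG N m)) (mu m) := by
  have hne : Nonempty (Gn N m) := ⟨.inr (false, 0)⟩
  obtain ⟨v, hv⟩ := exists_speed (g := (sm : Gn N m → GG N m))
    (fun i => (cs N m).simple_mul_simple_self i) len len_one len_nonneg len_mul len_gen (mu m) r hm
    hr hs (fun i => hinv (sm i))
  have hB : (0 : ℝ) < Fintype.card (Gn N m) := by
    have := Fintype.card_pos (α := Gn N m)
    exact_mod_cast this
  have hb : ∀ ω n, 0 ≤ (K sm (r ω))^[n] len (1 : GG N m) ∧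
      (K sm (r ω))^[n] len (1 : GG N m) ≤ n := fun ω n =>
    iter_nonneg_le sm (hr ω) len len_one len_nonneg
      (fun w i => (len_mul w (sm i)).trans (by linarith [len_gen (N := N) i])) n
  have hmeas : ∀ n, Measurable fun ω => (K sm (r ω))^[n] len (1 : GG N m) := fun n =>
    (measurable_iter sm len n 1).comp hm
  have hint : ∀ n, Integrable (fun ω => (K sm (r ω))^[n] len (1 : GG N m)) (mu m) := fun n =>
    Integrable.of_bound (hmeas n).aestronglyMeasurable n
      (Filter.Eventually.of_forall fun ω => by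
        rw [Real.norm_eq_abs, abs_of_nonneg (hb ω n).1]; exact (hb ω n).2)
  refine ⟨v, hv, ?_, hint⟩
  have h0 : ∀ n : ℕ, 0 ≤ ∫ ω, (K sm (r ω))^[n] len (1 : GG N m) ∂(mu m) := fun n =>
    integral_nonneg fun ω => (hb ω n).1
  have h1 : ∀ n : ℕ, ∫ ω, (K sm (r ω))^[n] len (1 : GG N m) ∂(mu m) ≤ n := fun n => by
    calc ∫ ω, (K sm (r ω))^[n] len (1 : GG N m) ∂(mu m) ≤ ∫ _, (n : ℝ) ∂(mu m) :=
          integral_mono (hint n) (integrable_const _) fun ω => (hb ω n).2
      _ = n := by simp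
  have hp := poisson_avg hB h0 h1 hv
  unfold IsSpeed
  refine (Filter.Tendsto.congr' ?_ hp)
  filter_upwards [Filter.eventually_ge_atTop (0 : ℝ)] with t ht
  congr 1
  rw [← integral_poisson (mu m) hB ht hmeas (fun n ω => (hb ω n).1) (fun n ω => (hb ω n).2)]
  rfl

end

/-- The expected speed is not monotone: there are a Coxeter system and two random rate fields
`r₁ ≤ r₂` (everywhere), each with a law invariant under left multiplication, which both have an
expected speed, and the speed of `r₁` is larger. -/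
theorem result : ∃ (B W : Type) (_ : Fintype B) (_ : Group W) (M : CoxeterMatrix B)
    (cs : CoxeterSystem M W) (Ω : Type) (_ : MeasurableSpace Ω) (μ : Measure Ω)
    (_ : IsProbabilityMeasure μ) (r₁ r₂ : Ω → W → B → ℝ) (v₁ v₂ : ℝ),
    IsRateField cs r₁ ∧ IsRateField cs r₂ ∧ (∀ ω w i, r₁ ω w i ≤ r₂ ω w i) ∧
    LawInvariant μ r₁ ∧ LawInvariant μ r₂ ∧
    IsSpeed cs μ r₁ v₁ ∧ IsSpeed cs μ r₂ v₂ ∧ v₂ < v₁ := by
  open Pool.Agent.MR in
  have : NeZero 130 := ⟨by norm_num⟩
  have hP : IsProbabilityMeasure (mu 130) := by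
    unfold mu
    infer_instance
  have hm2 : Measurable fun (ω : Om 130) (w : GG 2600 130) (b : Gn 2600 130) => R2 (ls2 ω) w b := by
    have e : (fun (ω : Om 130) (w : GG 2600 130) (b : Gn 2600 130) => R2 (ls2 ω) w b) =
        (fun (ω : Om 130) (w : GG 2600 130) (b : Gn 2600 130) => R2 (ls ω) w b) ∘ Phi := by
      funext ω w b
      simp only [Function.comp]
      rw [ls_Phi (by norm_num)]
    rw [e]
    exact measurable_R2.comp mp_Phi.measurable
  have hbal2 : ∀ ω : Om 130, Bal (ls2 ω) := fun ω => by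
    rw [← ls_Phi (by norm_num)]
    exact bal_ls _
  obtain ⟨a₁, ha₁, hs₁, hi₁⟩ := speed_of (N := 2600) (m := 130) (fun ω => R1 (ls ω)) measurable_R1
    (fun ω => R1_mem _) (fun ω => R1_symm (bal_ls ω)) inv1
  obtain ⟨a₂, ha₂, hs₂, hi₂⟩ := speed_of (N := 2600) (m := 130) (fun ω => R2 (ls2 ω)) hm2
    (fun ω => R2_mem _) (fun ω => R2_symm (hbal2 ω)) (inv2 (by norm_num))
  refine ⟨Gn 2600 130, GG 2600 130, inferInstance, inferInstance, mat 2600 130, cs 2600 130,
    Om 130, inferInstance, mu 130, hP, fun ω => R1 (ls ω), fun ω => R2 (ls2 ω),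
    Fintype.card (Gn 2600 130) * a₁, Fintype.card (Gn 2600 130) * a₂,
    ⟨measurable_R1, fun ω w i => (R1_mem _ w i).1, fun ω w i => (R1_mem _ w i).2,
      fun ω => R1_symm (bal_ls ω)⟩,
    ⟨hm2, fun ω w i => (R2_mem _ w i).1, fun ω w i => (R2_mem _ w i).2,
      fun ω => R2_symm (hbal2 ω)⟩,
    fun ω w i => fld_le (by norm_num) ω (ys w) i, inv1, inv2 (by norm_num), hs₁, hs₂, ?_⟩
  have hB : (0 : ℝ) < Fintype.card (Gn 2600 130) := by
    have : 0 < Fintype.card (Gn 2600 130) := Fintype.card_pos_iff.2 ⟨.inr (false, 0)⟩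
    exact_mod_cast this
  have k1 : (7 * (2600 : ℕ) / (26 * Fintype.card (Gn 2600 130)) : ℝ) ≤ a₁ := by
    refine le_speed (C := (2600 : ℕ)) (fun n => ?_) ha₁
    calc (n * (7 * (2600 : ℕ) / (26 * Fintype.card (Gn 2600 130))) - (2600 : ℕ) : ℝ)
        = ∫ _, (n * (7 * (2600 : ℕ) / (26 * Fintype.card (Gn 2600 130))) - (2600 : ℕ) : ℝ)
          ∂(mu 130) := by simp
      _ ≤ _ := integral_mono (integrable_const _) (hi₁ n) fun ω => lower1 (ls ω) (bal_ls ω) n
  have k2 : a₂ ≤ ((2 * (130 : ℕ) + 16 * (2600 : ℕ) / (130 : ℕ)) / Fintype.card (Gn 2600 130) : ℝ) := by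
    refine speed_le (C := (8 * (2600 : ℕ) / (130 : ℕ) + 2 * (2600 : ℕ) : ℝ)) (fun n => ?_) ha₂
    calc _ ≤ ∫ _, ((8 * (2600 : ℕ) / (130 : ℕ) + 2 * (2600 : ℕ) : ℝ) +
          n * ((2 * (130 : ℕ) + 16 * (2600 : ℕ) / (130 : ℕ)) / Fintype.card (Gn 2600 130) : ℝ))
          ∂(mu 130) :=
        integral_mono (hi₂ n) (integrable_const _) fun ω =>
          upper2 (by norm_num) (ls2 ω) (hbal2 ω) n
      _ = _ := by simp
  apply mul_lt_mul_of_pos_left _ hB
  refine lt_of_le_of_lt k2 (lt_of_lt_of_le ?_ k1)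
  rw [div_lt_div_iff₀ hB (by positivity)]
  push_cast
  nlinarith

end Pool.Agent.Results.MP_34a06d_pr.NotMonotone
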